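import Pool.Agent.helper36.MP.SpecN

set_option autoImplicit false

open Complex Metric Set Filter Topology MeasureTheory

noncomputable section

namespace MPS

theorem NFM_HPopen : IsOpen (HP 0) := by
  unfold HP
  exact isOpen_lt Complex.continuous_re continuous_const

theorem NFM_nat_mono {k : ℕ} [NeZero k] {b g : ZMod k → ℂ} {χ : ℂ → ℂ} {Ω Ω' : Set ℂ}
    (h : IsNat b g χ Ω) (hs : Ω' ⊆ Ω) : IsNat b g χ Ω' :=
  ⟨h.diff.mono hs, fun w hw => h.av w (hs hw), fun w hw => h.eq w (hs hw)⟩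

theorem NFM_nat_shift {k : ℕ} [NeZero k] {b g : ZMod k → ℂ} {χ : ℂ → ℂ} {Ω Ω' : Set ℂ} (a : ℂ)
    (h : IsNat b g χ Ω) (hs : ∀ w ∈ Ω', w - a ∈ Ω) : IsNat b g (fun w => χ (w - a)) Ω' := by
  refine ⟨?_, fun w hw => h.av _ (hs w hw), fun w hw => ?_⟩
  · exact h.diff.comp (by fun_prop) hs
  · rw [deriv_comp_sub_const]
    exact h.eq _ (hs w hw)

theorem NFM_overlap {k : ℕ} [NeZero k] {b g : ZMod k → ℂ} {ψ χ₁ χ₂ : ℂ → ℂ} {y₁ y₂ e : ℝ}
    (h1 : IsNat b g χ₁ (HP 0 ∪ ball ((y₁ : ℂ) * I) e))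
    (h2 : IsNat b g χ₂ (HP 0 ∪ ball ((y₂ : ℂ) * I) e))
    (e1 : EqOn χ₁ (hat ψ) (HP 0)) (e2 : EqOn χ₂ (hat ψ) (HP 0)) :
    ∀ w ∈ ball ((y₁ : ℂ) * I) e ∩ ball ((y₂ : ℂ) * I) e, χ₁ w = χ₂ w := by
  intro w hw
  set S : Set ℂ := ball ((y₁ : ℂ) * I) e ∩ ball ((y₂ : ℂ) * I) e with hS
  have hSo : IsOpen S := isOpen_ball.inter isOpen_ball
  have hSc : IsPreconnected S := ((convex_ball _ _).inter (convex_ball _ _)).isPreconnected
  have hmid : ∀ y : ℝ, w ∈ ball ((y : ℂ) * I) e → ((w.im : ℂ) * I) ∈ ball ((y : ℂ) * I) e := by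
    intro y hy
    rw [mem_ball, dist_eq_norm] at hy ⊢
    refine lt_of_le_of_lt ?_ hy
    have h3 : ((w.im : ℂ) * I - (y : ℂ) * I) = ((w.im - y : ℝ) : ℂ) * I := by push_cast; ring
    rw [h3, norm_mul, Complex.norm_I, mul_one, Complex.norm_real]
    have h4 := Complex.abs_im_le_norm (w - (y : ℂ) * I)
    simpa using h4
  have hmS : ((w.im : ℂ) * I) ∈ S := ⟨hmid _ hw.1, hmid _ hw.2⟩
  obtain ⟨δ, hδ, hδS⟩ := Metric.isOpen_iff.mp hSo _ hmS
  set z₀ : ℂ := (w.im : ℂ) * I - ((δ / 2 : ℝ) : ℂ) with hz₀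
  have hz₀S : z₀ ∈ S := by
    apply hδS
    rw [mem_ball, dist_eq_norm, hz₀]
    have h3 : (w.im : ℂ) * I - ((δ / 2 : ℝ) : ℂ) - (w.im : ℂ) * I = -((δ / 2 : ℝ) : ℂ) := by ring
    rw [h3, norm_neg, Complex.norm_real, Real.norm_of_nonneg (by positivity)]
    linarith
  have hz₀H : z₀ ∈ HP 0 := by
    change z₀.re < -0
    have : z₀.re = -(δ / 2) := by
      rw [hz₀]
      simp
    rw [this]
    linarith
  have ha1 : AnalyticOnNhd ℂ χ₁ S :=
    (h1.diff.mono (fun z hz => Or.inr hz.1)).analyticOnNhd hSo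
  have ha2 : AnalyticOnNhd ℂ χ₂ S :=
    (h2.diff.mono (fun z hz => Or.inr hz.2)).analyticOnNhd hSo
  refine ha1.eqOn_of_preconnected_of_eventuallyEq ha2 hSc hz₀S ?_ hw
  filter_upwards [NFM_HPopen.mem_nhds hz₀H] with z hz
  rw [e1 hz, e2 hz]

theorem NFM_per (ψ : ℂ → ℂ) (w : ℂ) (m : ℤ) :
    hat ψ (w - m * (2 * Real.pi * I)) = hat ψ w := by
  unfold hat
  congr 1
  exact Complex.exp_periodic.sub_int_mul_eq m

theorem NFM_uniform {k : ℕ} [NeZero k] {b g : ZMod k → ℂ} {ψ : ℂ → ℂ}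
    (h : ∀ y : ℝ, ∃ r > (0 : ℝ), Flat b g ψ y r) :
    ∃ e > (0 : ℝ), ∀ y : ℝ, Flat b g ψ y e := by
  choose r hr χ hχ hχe using h
  have hK : IsCompact ((fun y : ℝ => (y : ℂ) * I) '' Icc 0 (2 * Real.pi)) :=
    isCompact_Icc.image (by fun_prop)
  obtain ⟨e, he, hcov⟩ := lebesgue_number_lemma_of_metric hK
    (c := fun y : ℝ => ball ((y : ℂ) * I) (r y)) (fun y => isOpen_ball) (by
      rintro _ ⟨y, hy, rfl⟩
      exact mem_iUnion.mpr ⟨y, mem_ball_self (hr y)⟩)
  refine ⟨e, he, fun y => ?_⟩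
  set m : ℤ := ⌊y / (2 * Real.pi)⌋ with hm
  set y' : ℝ := y - m * (2 * Real.pi) with hy'
  have hpi : 0 < 2 * Real.pi := by positivity
  have hy'0 : 0 ≤ y' := by
    have := Int.floor_le (y / (2 * Real.pi))
    rw [← hm, le_div_iff₀ hpi] at this
    linarith
  have hy'1 : y' ≤ 2 * Real.pi := by
    have := (Int.lt_floor_add_one (y / (2 * Real.pi))).le
    rw [← hm, div_le_iff₀ hpi] at this
    linarith
  obtain ⟨y₁, hy₁⟩ := hcov _ ⟨y', ⟨hy'0, hy'1⟩, rfl⟩
  refine ⟨fun w => χ y₁ (w - m * (2 * Real.pi * I)), ?_, ?_⟩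
  · refine NFM_nat_shift _ (hχ y₁) ?_
    rintro w (hw | hw)
    · left
      change (w - m * (2 * Real.pi * I)).re < -0
      have hw' : w.re < -0 := hw
      have : ((m : ℂ) * (2 * Real.pi * I)).re = 0 := by simp
      rw [Complex.sub_re, this, sub_zero]
      exact hw'
    · right
      apply hy₁
      rw [mem_ball, dist_eq_norm] at hw ⊢
      have h3 : w - m * (2 * Real.pi * I) - (y' : ℂ) * I = w - (y : ℂ) * I := by
        rw [hy']
        push_cast
        ring
      change ‖w - m * (2 * Real.pi * I) - (y' : ℂ) * I‖ < e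
      rw [h3]
      exact hw
  · intro w hw
    change χ y₁ (w - m * (2 * Real.pi * I)) = hat ψ w
    have hw2 : w - m * (2 * Real.pi * I) ∈ HP 0 := by
      change (w - m * (2 * Real.pi * I)).re < -0
      have hw' : w.re < -0 := hw
      have : ((m : ℂ) * (2 * Real.pi * I)).re = 0 := by simp
      rw [Complex.sub_re, this, sub_zero]
      exact hw'
    rw [hχe y₁ hw2, NFM_per]

theorem NFM : NFM_stmt := by
  intro k _ b g i ψ hmax
  by_contra hcon
  push Not at hcon
  obtain ⟨e, he, hflat⟩ := NFM_uniform hcon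
  choose χ hχ hχe using hflat
  set E : ℂ → ℂ := fun w => χ w.im w with hE
  -- `E` agrees with `χ y` on its domain
  have hEχ : ∀ (y : ℝ) (w : ℂ), w ∈ HP 0 ∪ ball ((y : ℂ) * I) e → E w = χ y w := by
    intro y w hw
    by_cases hw0 : w ∈ HP 0
    · change χ w.im w = χ y w
      rw [hχe _ hw0, hχe _ hw0]
    · have hwb : w ∈ ball ((y : ℂ) * I) e := hw.resolve_left hw0
      refine NFM_overlap (hχ w.im) (hχ y) (hχe _) (hχe _) w ⟨?_, hwb⟩
      rw [mem_ball, dist_eq_norm] at hwb ⊢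
      refine lt_of_le_of_lt ?_ hwb
      have h3 : w - (w.im : ℂ) * I = (w.re : ℂ) := by
        apply Complex.ext <;> simp
      rw [h3, Complex.norm_real]
      have h4 := Complex.abs_re_le_norm (w - (y : ℂ) * I)
      simpa using h4
  set V : Set ℂ := {w | w.re < e} with hV
  have hVo : IsOpen V := isOpen_lt Complex.continuous_re continuous_const
  have hVmem : ∀ w ∈ V, w ∈ HP 0 ∪ ball ((w.im : ℂ) * I) e := by
    intro w hw
    have hw' : w.re < e := hw
    by_cases h0 : w.re < 0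
    · left
      change w.re < -0
      linarith
    · right
      rw [mem_ball, dist_eq_norm]
      have h3 : w - (w.im : ℂ) * I = (w.re : ℂ) := by
        apply Complex.ext <;> simp
      rw [h3, Complex.norm_real, Real.norm_of_nonneg (not_lt.mp h0)]
      exact hw'
  have hopen : ∀ y : ℝ, IsOpen (HP 0 ∪ ball ((y : ℂ) * I) e) :=
    fun y => NFM_HPopen.union isOpen_ball
  have hEev : ∀ w ∈ V, E =ᶠ[𝓝 w] χ w.im := by
    intro w hw
    filter_upwards [(hopen w.im).mem_nhds (hVmem w hw)] with z hz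
    exact hEχ _ _ hz
  have hEnat : IsNat b g E V := by
    refine ⟨fun w hw => ?_, fun w hw j => ?_, fun w hw => ?_⟩
    · have h1 : DifferentiableAt ℂ (χ w.im) w :=
        (hχ w.im).diff.differentiableAt ((hopen w.im).mem_nhds (hVmem w hw))
      exact (h1.congr_of_eventuallyEq (hEev w hw)).differentiableWithinAt
    · exact (hχ w.im).av w (hVmem w hw) j
    · rw [(hEev w hw).deriv_eq]
      exact (hχ w.im).eq w (hVmem w hw)
  have hEH : ∀ w ∈ HP 0, E w = hat ψ w := fun w hw => hχe _ hw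
  have hVc : IsPreconnected V := (convex_halfSpace_re_lt e).isPreconnected
  have hEper : ∀ w ∈ V, E (w + 2 * Real.pi * I) = E w := by
    have hsh : ∀ w ∈ V, w + 2 * Real.pi * I ∈ V := by
      intro w hw
      change (w + 2 * Real.pi * I).re < e
      have hw' : w.re < e := hw
      simpa using hw'
    have ha1 : AnalyticOnNhd ℂ (fun w => E (w + 2 * Real.pi * I)) V :=
      (hEnat.diff.comp (by fun_prop) hsh).analyticOnNhd hVo
    have ha2 : AnalyticOnNhd ℂ E V := hEnat.diff.analyticOnNhd hVo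
    have hm1 : (-1 : ℂ) ∈ HP 0 := by
      change (-1 : ℂ).re < -0
      simp
    have hm1V : (-1 : ℂ) ∈ V := by
      change (-1 : ℂ).re < e
      simp
      linarith
    refine ha1.eqOn_of_preconnected_of_eventuallyEq ha2 hVc hm1V ?_
    filter_upwards [NFM_HPopen.mem_nhds hm1] with z hz
    have hz2 : z + 2 * Real.pi * I ∈ HP 0 := by
      change (z + 2 * Real.pi * I).re < -0
      have hz' : z.re < -0 := hz
      simpa using hz'
    rw [hEH _ hz2, hEH _ hz]
    unfold hat
    congr 1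
    exact Complex.exp_periodic z
  have hEperN : ∀ (n : ℕ) (w : ℂ), w ∈ V → E (w + n * (2 * Real.pi * I)) = E w := by
    intro n
    induction n with
    | zero => intro w _; simp
    | succ n ih =>
      intro w hw
      have hw2 : w + n * (2 * Real.pi * I) ∈ V := by
        change (w + n * (2 * Real.pi * I)).re < e
        have hw' : w.re < e := hw
        have : ((n : ℂ) * (2 * Real.pi * I)).re = 0 := by simp
        rw [Complex.add_re, this, add_zero]
        exact hw'
      have h3 := hEper _ hw2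
      rw [ih w hw] at h3
      rw [← h3]
      congr 1
      push_cast
      ring
  have hEperZ : ∀ (n : ℤ) (w : ℂ), w ∈ V → E (w + n * (2 * Real.pi * I)) = E w := by
    intro n w hw
    obtain ⟨m, rfl | rfl⟩ := n.eq_nat_or_neg
    · exact_mod_cast hEperN m w hw
    · have hw2 : w + ((-(m : ℤ) : ℤ) : ℂ) * (2 * Real.pi * I) ∈ V := by
        change (w + ((-(m : ℤ) : ℤ) : ℂ) * (2 * Real.pi * I)).re < e
        have hw' : w.re < e := hw
        have : (((-(m : ℤ) : ℤ) : ℂ) * (2 * Real.pi * I)).re = 0 := by simp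
        rw [Complex.add_re, this, add_zero]
        exact hw'
      have h3 := hEperN m _ hw2
      rw [← h3]
      congr 1
      push_cast
      ring
  have hexp : ∀ w₁ w₂ : ℂ, w₁ ∈ V → Complex.exp w₁ = Complex.exp w₂ → E w₁ = E w₂ := by
    intro w₁ w₂ hw hee
    obtain ⟨n, hn⟩ := Complex.exp_eq_exp_iff_exists_int.mp hee.symm
    rw [hn, hEperZ n w₁ hw]
  set Ψ : ℂ → ℂ := fun u => if u = 0 then ψ 0 else E (Complex.log u) with hΨ
  have hlogV : ∀ u : ℂ, u ≠ 0 → u ∈ ball (0 : ℂ) (Real.exp e) → Complex.log u ∈ V := by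
    intro u hu hub
    change (Complex.log u).re < e
    rw [Complex.log_re]
    rw [mem_ball_zero_iff] at hub
    rw [Real.log_lt_iff_lt_exp (norm_pos_iff.mpr hu)]
    exact hub
  have hΨψ : ∀ u ∈ ball (0 : ℂ) 1, Ψ u = ψ u := by
    intro u hu
    by_cases h0 : u = 0
    · simp [hΨ, h0]
    · have h1 : Complex.log u ∈ HP 0 := by
        change (Complex.log u).re < -0
        rw [Complex.log_re, neg_zero]
        rw [mem_ball_zero_iff] at hu
        exact Real.log_neg (norm_pos_iff.mpr h0) hu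
      simp only [hΨ, h0, if_false]
      rw [hEH _ h1]
      unfold hat
      rw [Complex.exp_log h0]
  have hΨ0 : Ψ =ᶠ[𝓝 0] ψ := by
    filter_upwards [ball_mem_nhds (0 : ℂ) one_pos] with u hu
    exact hΨψ u hu
  have hloc : ∀ u : ℂ, u ≠ 0 → u ∈ ball (0 : ℂ) (Real.exp e) →
      HasDerivAt Ψ (deriv E (Complex.log u) * u⁻¹) u := by
    intro u hu hub
    set ℓ : ℂ → ℂ := fun v => Complex.log (v / u) + Complex.log u with hℓ
    have hℓd : HasDerivAt ℓ u⁻¹ u := by
      have h1 : HasDerivAt (fun v : ℂ => v / u) (1 / u) u := (hasDerivAt_id u).div_const u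
      have h2 : HasDerivAt (fun v : ℂ => Complex.log (v / u)) ((1 / u) / (u / u)) u := by
        refine h1.clog ?_
        rw [div_self hu]
        exact Complex.one_mem_slitPlane
      rw [div_self hu, div_one, one_div] at h2
      exact h2.add_const _
    have hℓu : ℓ u = Complex.log u := by
      simp [hℓ, div_self hu]
    have hEd : HasDerivAt E (deriv E (Complex.log u)) (ℓ u) := by
      rw [hℓu]
      exact (hEnat.diff.differentiableAt (hVo.mem_nhds (hlogV u hu hub))).hasDerivAt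
    have hcomp := hEd.comp u hℓd
    refine hcomp.congr_of_eventuallyEq ?_
    filter_upwards [isOpen_ball.mem_nhds hub, isOpen_ne.mem_nhds hu] with v hv hv0
    have hv0' : v ≠ 0 := hv0
    simp only [hΨ, hv0', if_false, Function.comp]
    refine hexp _ _ (hlogV v hv0' hv) ?_
    rw [hℓ]
    simp only
    rw [Complex.exp_add, Complex.exp_log hv0', Complex.exp_log hu,
      Complex.exp_log (div_ne_zero hv0' hu)]
    field_simp
  have hPN : PN b g i Ψ (Real.exp e) := by
    refine ⟨Real.exp_pos e, ?_, ?_, ?_, ?_, ?_⟩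
    · intro u hub
      by_cases h0 : u = 0
      · subst h0
        have h1 : DifferentiableAt ℂ ψ 0 :=
          hmax.pn.diff.differentiableAt (isOpen_ball.mem_nhds (mem_ball_self one_pos))
        exact (h1.congr_of_eventuallyEq hΨ0).differentiableWithinAt
      · exact (hloc u h0 hub).differentiableAt.differentiableWithinAt
    · rw [hΨψ 0 (mem_ball_self one_pos)]
      exact hmax.pn.val
    · rw [hΨ0.deriv_eq]
      exact hmax.pn.der
    · intro u hub h0 j
      simp only [hΨ, h0, if_false]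
      exact hEnat.av _ (hlogV u h0 hub) j
    · intro u hub h0
      rw [(hloc u h0 hub).deriv]
      have h1 := hEnat.eq _ (hlogV u h0 hub)
      have h2 : Ψ u = E (Complex.log u) := by simp [hΨ, h0]
      rw [h2]
      calc u ^ 2 * (deriv E (Complex.log u) * u⁻¹) ^ 2 * BB b g (E (Complex.log u))
          = (u * u⁻¹) ^ 2 * (deriv E (Complex.log u) ^ 2 * BB b g (E (Complex.log u))) := by ring
        _ = 1 := by rw [h1, mul_inv_cancel₀ h0]; ring
  have h1e : 1 < Real.exp e := Real.one_lt_exp_iff.mpr he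
  exact hmax.mx _ h1e Ψ hPN hΨ0.deriv_eq

end MPS
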