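import Pool.Agent.helper36.MP.SpecQ

set_option autoImplicit false

open Complex Metric Set Filter Topology MeasureTheory

noncomputable section

namespace MPS

theorem P2A_card (F : Finset ℕ) (p : ℕ) (h : ∀ a ∈ F, ∀ b ∈ F, a < b → b - a = p) :
    F.card ≤ 2 := by
  by_contra hcon
  push Not at hcon
  obtain ⟨a, ha, b, hb, c, hc, hab, hac, hbc⟩ := Finset.two_lt_card.mp hcon
  have h1 := h a ha b hb
  have h2 := h b hb a ha
  have h3 := h a ha c hc
  have h4 := h c hc a ha
  have h5 := h b hb c hc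
  have h6 := h c hc b hb
  omega

theorem P2A (hLRU : LRU_stmt) (hTBD : TBD_stmt) (hP2H : P2H_stmt) : P2A_stmt := by
  intro n k _ c b g ψ R ε y ρ₁ χ G1 ps T G Q hH
  obtain ⟨h2, hsys, hQk⟩ := hH
  obtain ⟨-, hP2, hinj, -⟩ := hP2H n k c b g ψ R ε y ρ₁ χ G1 ps h2
  have hr0 := h2.r0
  have hsu := h2.su
  set x : ℂ := (y : ℂ) * I with hx
  -- monotonicity
  have hanti : ∀ q q', q ≤ q' → q' ≤ Q → T q' ≤ T q := by
    intro q q' hqq
    induction q', hqq using Nat.le_induction with
    | base => intro _; exact le_rfl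
    | succ m hm ih =>
      intro hmQ
      exact (hsys.anti m (by omega)).trans (ih (by omega))
  have hTρ : ∀ q ≤ Q, T q ≤ ρ₁ := fun q hq => (hanti 0 q (by omega) hq).trans hsys.t0
  have hrel : ∀ q < Q, ∀ w ∈ ball x (T (q + 1)), G (q + 1) w ^ n + c = G q w ∧ G (q + 1) w ≠ 0 :=
    hsys.rel
  have hiter : ∀ d q, q + d ≤ Q → ∀ w ∈ ball x (T (q + d)),
      (fun z : ℂ => z ^ n + c)^[d] (G (q + d) w) = G q w := by
    intro d
    induction d with
    | zero => intro q _ w _; rfl
    | succ d ih =>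
      intro q hq w hw
      rw [Function.iterate_succ_apply]
      have h1 := (hrel (q + d) (by omega) w hw).1
      change (fun z : ℂ => z ^ n + c)^[d] ((G (q + d + 1) w) ^ n + c) = G q w
      rw [h1]
      exact ih q (by omega) w (ball_subset_ball (hanti (q + d) (q + (d + 1)) (by omega) hq) hw)
  have hiter0 : ∀ q ≤ Q, ∀ w ∈ ball x (T q),
      (fun z : ℂ => z ^ n + c)^[q] (G q w) = χ w := by
    intro q hq w hw
    have h1 := hiter q 0 (by omega) w (by rwa [zero_add])
    rw [zero_add, hsys.g0] at h1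
    exact h1
  -- the centre
  have hw₀ball : ∀ q ≤ Q, x - (ρ₁ : ℂ) / 4 ∈ ball x (T q) := by
    intro q hq
    rw [mem_ball, dist_eq_norm]
    have h1 : x - (ρ₁ : ℂ) / 4 - x = -((ρ₁ / 4 : ℝ) : ℂ) := by push_cast; ring
    rw [h1, norm_neg, Complex.norm_real, Real.norm_of_nonneg (by positivity)]
    have := hsys.low q hq
    linarith
  have hxre : x.re = 0 := by simp [hx]
  have hw₀re : (x - (ρ₁ : ℂ) / 4).re = -(ρ₁ / 4) := by
    have h1 : x - (ρ₁ : ℂ) / 4 = x - ((ρ₁ / 4 : ℝ) : ℂ) := by push_cast; ring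
    rw [h1, Complex.sub_re, Complex.ofReal_re, hxre]
    ring
  have hHPo : IsOpen (HP (3 * (ρ₁ / 64))) := by
    unfold HP
    exact isOpen_lt Complex.continuous_re continuous_const
  have hHPc : Convex ℝ (HP (3 * (ρ₁ / 64))) := convex_halfSpace_re_lt _
  have hw₀HP : x - (ρ₁ : ℂ) / 4 ∈ HP (3 * (ρ₁ / 64)) := by
    change (x - (ρ₁ : ℂ) / 4).re < -(3 * (ρ₁ / 64))
    rw [hw₀re]
    linarith
  have hexp : ∀ w ∈ HP (3 * (ρ₁ / 64)), Complex.exp w ∈ ball (0 : ℂ) (Real.exp (-(3 * (ρ₁ / 64)))) := by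
    intro w hw
    rw [mem_ball_zero_iff, Complex.norm_exp]
    exact Real.exp_lt_exp.mpr hw
  have hn1 : 1 ≤ n := le_trans (by norm_num) hsu.hn
  -- first claim
  have c1 : ∀ q ≤ Q, ∀ w ∈ ball x (T q), w.re < -(3 * (ρ₁ / 64)) → G q w = GW G1 q w := by
    intro q
    induction q with
    | zero =>
      intro _ w _ hw
      have hw0 : w ∈ HP 0 := by
        change w.re < -0
        linarith
      rw [hsys.g0, h2.ext hw0]
      unfold GW hat
      rw [h2.s1.g0]
    | succ q ih =>
      intro hq w hw hwre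
      have hΩc : Convex ℝ (ball x (T (q + 1)) ∩ HP (3 * (ρ₁ / 64))) :=
        (convex_ball _ _).inter hHPc
      have key := hLRU n (ball x (T (q + 1)) ∩ HP (3 * (ρ₁ / 64))) (G (q + 1)) (GW G1 (q + 1))
        (x - (ρ₁ : ℂ) / 4) hn1 hΩc.isPreconnected
        ((hsys.diff (q + 1) hq).continuousOn.mono inter_subset_left) ?_ ?_ ?_
        ⟨hw₀ball _ hq, hw₀HP⟩ (hsys.val (q + 1) hq)
      · exact key ⟨hw, hwre⟩
      · have h1 := (h2.s1.diff (q + 1) (by omega) (by omega)).continuousOn
        exact h1.comp Complex.continuous_exp.continuousOn (fun z hz => hexp z hz.2)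
      · intro z hz
        have h1 := (hrel q (by omega) z hz.1).1
        have h3 := (h2.s1.rel q (by omega) (Complex.exp z) (hexp z hz.2)).1
        have h4 := ih (by omega) z (ball_subset_ball (hanti q (q + 1) (by omega) hq) hz.1) hz.2
        have h5 : G (q + 1) z ^ n = G q z - c := by rw [← h1]; ring
        have h6 : GW G1 (q + 1) z ^ n = G1 q (Complex.exp z) - c := by
          rw [← h3]
          unfold GW
          ring
        rw [h5, h6, h4]
        rfl
      · intro z hz
        exact (h2.s1.rel q (by omega) (Complex.exp z) (hexp z hz.2)).2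
  -- injectivity
  have c2 : ∀ q ≤ Q, InjOn (G q) (ball x (T q)) := by
    intro q hq w hw w' hw' he
    have h1 := hiter0 q hq w hw
    have h3 := hiter0 q hq w' hw'
    rw [he, h3] at h1
    exact (hinj (ball_subset_ball (hTρ q hq) hw') (ball_subset_ball (hTρ q hq) hw) h1).symm
  have c3 : ∀ q ≤ Q, MapsTo (G q) (ball x (T q)) (ball 0 R) := by
    intro q
    induction q with
    | zero =>
      intro hq w hw
      rw [hsys.g0]
      exact h2.mp1 (ball_subset_ball hsys.t0 hw)
    | succ q ih =>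
      intro hq w hw
      have h1 := ih (by omega) (ball_subset_ball (hanti q (q + 1) (by omega) hq) hw)
      rw [← (hrel q (by omega) w hw).1, mem_ball_zero_iff] at h1
      rw [mem_ball_zero_iff]
      exact (hTBD n c hsu.hn hsu.hc).2.1 R _ hsu.hR h1
  have c4 : ∀ q ≤ Q, LevSys n c b g G (ball x (T q)) q := by
    intro q hq
    refine ⟨?_, ?_, ?_⟩
    · rw [hsys.g0]
      have hsub : ball x (T q) ⊆ HP 0 ∪ ball x (16 * ρ₁) := by
        intro w hw
        right
        exact ball_subset_ball (by have := hTρ q hq; linarith) hw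
      exact ⟨h2.nat.diff.mono hsub, fun w hw => h2.nat.av w (hsub hw),
        fun w hw => h2.nat.eq w (hsub hw)⟩
    · intro q' hq'
      exact (hsys.diff q' (by omega)).mono (ball_subset_ball (hanti q' q hq' hq))
    · intro q' hq' w hw
      exact hrel q' (by omega) w (ball_subset_ball (hanti (q' + 1) q (by omega) hq) hw)
  refine ⟨c1, c2, c3, c4, ?_, ?_, ?_⟩
  · intro z F hF
    refine P2A_card F ps ?_
    intro q hq q' hq' hqq
    obtain ⟨hqQ, w, hw, hwz⟩ := hF q hq
    obtain ⟨hqQ', w', hw', hwz'⟩ := hF q' hq'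
    by_contra hne
    have h1 := hiter0 q (by omega) w (ball_subset_ball (hanti q (q + 1) (by omega) (by omega)) hw)
    have h3 := hiter q (q' - q) (by omega) w'
      (by
        have h4 : q' - q + q = q' := by omega
        rw [h4]
        exact ball_subset_ball (hanti q' (q' + 1) (by omega) (by omega)) hw')
    have h4 : q' - q + q = q' := by omega
    rw [h4, hwz'] at h3
    rw [hwz] at h1
    have h5 := hsys.disj (q' - q) (by omega) (by omega) hne
    refine Set.disjoint_left.mp h5 ⟨w', ?_, rfl⟩ ⟨w, ?_, ?_⟩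
    · exact ball_subset_ball (hanti (q' - q + 1) (q' + 1) (by omega) (by omega)) hw'
    · exact ball_subset_ball (hTρ (q + 1) (by omega)) hw
    · rw [← h1, h3]
  · intro r hr hdis z F hF
    refine P2A_card F ps ?_
    intro q hq q' hq' hqq
    obtain ⟨hqQ, w, hw, hwz⟩ := hF q hq
    obtain ⟨hqQ', w', hw', hwz'⟩ := hF q' hq'
    by_contra hne
    have h1 := hiter0 q (by omega) w
      (ball_subset_ball (hr.trans (hanti q Q (by omega) le_rfl)) hw)
    have h3 := hiter q (q' - q) (by omega) w'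
      (by
        have h4 : q' - q + q = q' := by omega
        rw [h4]
        exact ball_subset_ball (hr.trans (hanti q' Q (by omega) le_rfl)) hw')
    have h4 : q' - q + q = q' := by omega
    rw [h4, hwz'] at h3
    rw [hwz] at h1
    have hwρ : w ∈ ball x ρ₁ := ball_subset_ball (hr.trans (hTρ Q le_rfl)) hw
    by_cases hpQ : q' - q < Q
    · have h5 := hsys.disj (q' - q) (by omega) hpQ hne
      refine Set.disjoint_left.mp h5 ⟨w', ?_, rfl⟩ ⟨w, hwρ, ?_⟩
      · exact ball_subset_ball (hr.trans (hanti (q' - q + 1) Q (by omega) le_rfl)) hw'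
      · rw [← h1, h3]
    · have hpQ' : q' - q = Q := by omega
      rw [hpQ'] at hne h3
      have h5 := hdis (by omega) hne
      refine Set.disjoint_left.mp h5 ⟨w', hw', rfl⟩ ⟨w, hwρ, ?_⟩
      rw [← h1, h3]
  · have hev : ∀ q ≤ Q, G q =ᶠ[𝓝 (x - (ρ₁ : ℂ) / 4)] GW G1 q := by
      intro q hq
      filter_upwards [isOpen_ball.mem_nhds (hw₀ball q hq), hHPo.mem_nhds hw₀HP] with z hz hz2
      exact c1 q hq z hz hz2
    have hlev : ∀ q ∈ Finset.Icc 1 Q, lev n c b g G q (x - (ρ₁ : ℂ) / 4) =
        lev n c b g (GW G1) q (x - (ρ₁ : ℂ) / 4) := by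
      intro q hq
      rw [Finset.mem_Icc] at hq
      unfold lev bet eef
      rw [(hev q hq.2).deriv_eq, (hev q hq.2).eq_of_nhds, (hev (q - 1) (by omega)).deriv_eq,
        (hev (q - 1) (by omega)).eq_of_nhds]
    rw [Finset.sum_congr rfl hlev]
    refine le_trans ?_ hP2
    refine Finset.sum_le_sum_of_subset_of_nonneg (Finset.Icc_subset_Icc le_rfl hQk) ?_
    intro q _ _
    unfold lev
    exact add_nonneg (Finset.sum_nonneg fun j _ => norm_nonneg _) (norm_nonneg _)

end MPS
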